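import Pool.Agent.LSG.StmtsB

/-!
Squad LSG, row NSZ, from NSD and SZD.
-/

set_option autoImplicit false

namespace Pool.Agent.LSG.H49

/-- **Row NSZ.** -/
theorem nsz (hNsd : NsdStmt) (hSzd : SzdStmt) : NszStmt :=
  fun G hB hU hS => hNsd G hB hU (hSzd G hS)

end Pool.Agent.LSG.H49
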